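import Pool.Agent.Lib.HSC43.ARITH
import Pool.Agent.Lib.HSC43.CURV
import Pool.Agent.Lib.HSC43.FIN
import Pool.Agent.Lib.HSC43.METRIC
import Pool.Agent.Lib.HSC43.QUOT
import Pool.Agent.Lib.HSC43.STEREO
import Pool.Agent.Lib.HSC35.Uniq

set_option autoImplicit false

namespace Pool.Agent.Results.MP_40b2af_gt.ChernCounterexample

open scoped Manifold ContDiff
open Pool.Agent.Lib.MP_40b2af_gt (V RMetric)
open Pool.Agent.Lib.HSC35 Pool.Agent.Lib.HSC43

/-- A compact connected Hermitian manifold of complex dimension 7 whose Chern connection has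
holomorphic sectional curvature identically zero and is not flat. -/
theorem result :
    ∃ (M : Type) (_ : TopologicalSpace M) (_ : T2Space M) (_ : CompactSpace M)
      (_ : ConnectedSpace M) (_ : ChartedSpace (V 7) M) (_ : IsManifold 𝓘(ℝ, V 7) ∞ M)
      (_ : IsManifold 𝓘(ℂ, V 7) ω M) (g : RMetric (V 7) M),
      Hermitian g ∧ (∃ D : Conn (V 7) M, IsChern g D) ∧
        ∀ D : Conn (V 7) M, IsChern g D → ConstHSC g D 0 ∧ ¬ Flat D := by
  obtain ⟨M, i1, i2, i3, i4, i5, i6, i7, g, h1, h2, h3⟩ :=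
    blk_FIN blk_BOOST blk_STEREO (blk_CURV blk_STEREO blk_BOOST) (blk_NONFLAT blk_STEREO)
      blk_METRIC (blk_QUOT blk_STEREO blk_CONN) blk_ARITH
  exact ⟨M, i1, i2, i3, i4, i5, i6, i7, g, herm h1, ⟨cov g, isChern h1⟩,
    fun D hD => ⟨const' h1 hD h2, fun hf => h3 (flat' h1 hD hf)⟩⟩

end Pool.Agent.Results.MP_40b2af_gt.ChernCounterexample
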