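import Pool.Agent.Lib.CK9.Main

/-! On a compact Kähler manifold with nef canonical bundle, a Hermitian metric of constant
holomorphic sectional curvature `c` is Kähler, and is flat if `c = 0`. -/

open scoped Manifold ContDiff Matrix

namespace Pool.Agent.Results.MP_40b2af_gt.KaehlerNef

open Pool.Agent.Lib.SV Pool.Agent.Lib.HS Pool.Agent.Lib.GH Pool.Agent.Lib.HW

theorem result (n : ℕ) (X : Type) [TopologicalSpace X] [ChartedSpace (E n) X]
    [IsManifold 𝓘(ℂ, E n) ω X] [CompactSpace X] [T2Space X] [ConnectedSpace X]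
    (g h : X → Mat n) (c : ℝ) (hg : Kaehler g) (hK : CanNef g) (hh : Hermitian h)
    (hc : ∀ x v, curvAt h x v v = c * (star v ⬝ᵥ h x *ᵥ v).re ^ 2) :
    Kaehler h ∧ (c = 0 → ∀ x a v, curvAt h x a v = 0) :=
  Pool.Agent.Lib.CK9.main n X g h c hg hK hh hc

end Pool.Agent.Results.MP_40b2af_gt.KaehlerNef
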